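import Pool.Agent.MP_794e6e_pr.Paths
import Pool.Agent.MP_794e6e_pr.Bridge

/-! Self-avoiding walks on `ℤ³` that stay in a reversible set seen from an endpoint: doubling. -/

namespace Pool.Agent.RevS

open Finset Filter
open scoped Classical
open Pool.Agent.MP_794e6e_pr

/-- all final pieces have nonnegative displacement in the direction `f` -/
def Lo (f : Pt →+ ℤ) (l : Word) : Prop := ∀ a u : Word, l = a ++ u → 0 ≤ f (D u)

/-- all initial pieces have nonnegative displacement in the direction `f` -/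
def Li (f : Pt →+ ℤ) (l : Word) : Prop := ∀ u b : Word, l = u ++ b → 0 ≤ f (D u)

/-- all nonempty initial pieces have positive displacement in the direction `f` -/
def Hi (f : Pt →+ ℤ) (l : Word) : Prop := ∀ u b : Word, l = u ++ b → u ≠ [] → 0 < f (D u)

/-- seen from its end, the walk stays in `S` -/
def InS (S : Set Pt) (l : Word) : Prop := ∀ a u : Word, l = a ++ u → -D u ∈ S

theorem Lo.nil (f : Pt →+ ℤ) : Lo f [] := by
  intro a u h
  have h1 := List.append_eq_nil_iff.1 h.symm
  rw [h1.2]; simp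

theorem Hi.nil (f : Pt →+ ℤ) : Hi f [] := by
  intro u b h hu
  have h1 := List.append_eq_nil_iff.1 h.symm
  exact absurd h1.1 hu

theorem Li.left {f : Pt →+ ℤ} {a b : Word} (h : Li f (a ++ b)) : Li f a := by
  intro u d hu
  refine h u (d ++ b) ?_
  rw [hu]; simp

theorem Hi.toLi {f : Pt →+ ℤ} {a : Word} (h : Hi f a) : Li f a := by
  intro u d hu
  by_cases h0 : u = []
  · rw [h0]; simp
  · exact (h u d hu h0).le

theorem InS.right {S : Set Pt} {a b : Word} (h : InS S (a ++ b)) : InS S b := by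
  intro c u hc
  refine h (a ++ c) u ?_
  rw [hc]; simp

theorem Lo.app {f : Pt →+ ℤ} {a b : Word} (ha : Lo f a) (hb : Lo f b) : Lo f (a ++ b) := by
  intro c u hcu
  rcases List.append_eq_append_iff.1 hcu with ⟨e, he1, he2⟩ | ⟨e, he1, he2⟩
  · exact hb e u he2
  · rw [he2, D_append, map_add]
    exact add_nonneg (ha c e he1) (hb [] b (by simp))

theorem Hi.app {f : Pt →+ ℤ} {a b : Word} (ha : Hi f a) (hb : Hi f b) : Hi f (a ++ b) := by
  intro u d hud hne
  rcases List.append_eq_append_iff.1 hud with ⟨e, he1, he2⟩ | ⟨e, he1, he2⟩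
  · rw [he1, D_append, map_add]
    by_cases h0 : a = []
    · subst h0
      have : e ≠ [] := by
        intro h; apply hne; rw [he1, h]; rfl
      have := hb e d he2 this
      simpa using this
    · have h1 := ha a [] (by simp) h0
      by_cases h2 : e = []
      · subst h2; simpa using h1
      · have := hb e d he2 h2
        exact add_pos h1 this
  · exact ha u e he1 hne

/-- concatenation of two self-avoiding words without a common point -/
theorem saw_join {a b : Word} (ha : saw a) (hb : saw b)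
    (h : ∀ c u : Word, a = c ++ u → ∀ v d : Word, b = v ++ d → v ≠ [] → D u + D v ≠ 0) :
    saw (a ++ b) := by
  intro c u d hcd hne
  rcases List.append_eq_append_iff.1 hcd with ⟨e, he1, he2⟩ | ⟨e, he1, he2⟩
  · exact hb e u d he2 hne
  · rcases List.append_eq_append_iff.1 he2 with ⟨g, hg1, hg2⟩ | ⟨g, hg1, hg2⟩
    · exact ha c u g (by rw [he1, hg1]) hne
    · by_cases h0 : g = []
      · subst h0
        rw [List.append_nil] at hg1
        exact ha c u [] (by rw [he1, hg1]; simp) hne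
      · intro hcon
        rw [hg1, D_append] at hcon
        exact h c e he1 g d hg2 h0 hcon

theorem rev_split {v c b : Word} (h : v.reverse = c ++ b) : v = b.reverse ++ c.reverse := by
  have := congrArg List.reverse h
  simpa using this

theorem saw_rev {w : Word} (h : saw w) : saw w.reverse := by
  intro a u b hab hne hcon
  have h1 : w = b.reverse ++ (u.reverse ++ a.reverse) := by
    have := congrArg List.reverse hab
    simpa using this
  exact h _ _ _ h1 (by simpa using hne) (by rw [D_reverse]; exact hcon)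

/-! ### Bridges in the direction `f` -/

/-- bridges in the direction `f` -/
noncomputable def brf (f : Pt →+ ℤ) (n : ℕ) : Finset Word :=
  (wd n).filter fun w => saw w ∧ Lo f w ∧ Hi f w

theorem mem_brf {f : Pt →+ ℤ} {n : ℕ} {w : Word} :
    w ∈ brf f n ↔ w.length = n ∧ saw w ∧ Lo f w ∧ Hi f w := by
  unfold brf; rw [mem_filter, mem_wd]

theorem card_brf_add (f : Pt →+ ℤ) (m n : ℕ) :
    (brf f m).card * (brf f n).card ≤ (brf f (m + n)).card := by
  rw [← card_product]
  refine card_le_card_of_injOn (fun p => p.1 ++ p.2) ?_ ?_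
  · rintro ⟨u, v⟩ h
    rw [mem_coe, mem_product, mem_brf, mem_brf] at h
    obtain ⟨⟨h1, h2, h3, h4⟩, h5, h6, h7, h8⟩ := h
    rw [mem_coe, mem_brf, List.length_append]
    exact ⟨by omega, saw.append_of f h2 h6 h3 h8, h3.app h7, h4.app h8⟩
  · rintro ⟨u, v⟩ h ⟨u', v'⟩ h' heq
    rw [mem_coe, mem_product, mem_brf, mem_brf] at h h'
    simp only at heq
    obtain ⟨h1, h2⟩ := List.append_inj heq (h.1.1.trans h'.1.1.symm)
    rw [h1, h2]

theorem brf_subset_walks (f : Pt →+ ℤ) (n : ℕ) : brf f n ⊆ walks n := by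
  intro w hw
  rw [mem_brf] at hw
  rw [mem_walks]
  exact ⟨hw.1, hw.2.1⟩

theorem brf_pow (f : Pt →+ ℤ) (n k : ℕ) : (brf f n).card ^ k ≤ (brf f (k * n)).card := by
  induction k with
  | zero =>
    rw [pow_zero, zero_mul, Nat.one_le_iff_ne_zero, ← Nat.pos_iff_ne_zero, card_pos]
    exact ⟨[], mem_brf.2 ⟨rfl, saw_nil, Lo.nil f, Hi.nil f⟩⟩
  | succ k ih =>
    rw [pow_succ, Nat.succ_mul]
    exact (Nat.mul_le_mul_right _ ih).trans (card_brf_add _ _ _)

/-- a number whose powers are below the numbers of walks -/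
theorem le_mu_pow {μ : ℝ}
    (ht : Tendsto (fun n : ℕ => ((walks n).card : ℝ) ^ (1 / (n : ℝ))) atTop (nhds μ)) {n b : ℕ}
    (h : ∀ k, b ^ k ≤ (walks (k * n)).card) : (b : ℝ) ≤ μ ^ n := by
  rcases Nat.eq_zero_or_pos n with rfl | hn
  · have h1 := h 1
    rw [pow_one] at h1
    have h2 : (walks (1 * 0)).card ≤ 1 := by
      rw [card_le_one]
      intro a ha c hc
      rw [mem_walks] at ha hc
      rw [List.eq_nil_of_length_eq_zero (by omega : a.length = 0),
        List.eq_nil_of_length_eq_zero (by omega : c.length = 0)]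
    rw [pow_zero]
    exact_mod_cast h1.trans h2
  · have h1 : Tendsto (fun k : ℕ => (((walks (k * n)).card : ℝ) ^ (1 / ((k * n : ℕ) : ℝ))) ^ n)
        atTop (nhds (μ ^ n)) :=
      (ht.comp (Filter.tendsto_id.atTop_mul_const' hn)).pow n
    refine ge_of_tendsto h1 ?_
    filter_upwards [eventually_gt_atTop 0] with k hk
    have hk' : (0 : ℝ) < k := by exact_mod_cast hk
    have hn' : (0 : ℝ) < n := by exact_mod_cast hn
    have h2 : ((b : ℝ)) ^ k ≤ (walks (k * n)).card := by exact_mod_cast h k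
    have h3 : (((walks (k * n)).card : ℝ) ^ (1 / ((k * n : ℕ) : ℝ))) ^ n
        = ((walks (k * n)).card : ℝ) ^ (1 / (k : ℝ)) := by
      rw [← Real.rpow_natCast, ← Real.rpow_mul (Nat.cast_nonneg _)]
      congr 1
      push_cast
      field_simp
    rw [h3]
    calc (b : ℝ) = (((b : ℝ)) ^ k) ^ (1 / (k : ℝ)) := by
          rw [one_div, Real.pow_rpow_inv_natCast (Nat.cast_nonneg _) hk.ne']
      _ ≤ _ := Real.rpow_le_rpow (by positivity) h2 (by positivity)

theorem brf_le {μ : ℝ}
    (ht : Tendsto (fun n : ℕ => ((walks n).card : ℝ) ^ (1 / (n : ℝ))) atTop (nhds μ))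
    (f : Pt →+ ℤ) (n : ℕ) : ((brf f n).card : ℝ) ≤ μ ^ n :=
  le_mu_pow ht fun k => (brf_pow f n k).trans (card_le_card (brf_subset_walks f _))

/-- weak bridges in the direction `f` -/
noncomputable def wbr (f : Pt →+ ℤ) (n : ℕ) : Finset Word :=
  (wd n).filter fun w => saw w ∧ Lo f w ∧ Li f w

theorem mem_wbr {f : Pt →+ ℤ} {n : ℕ} {w : Word} :
    w ∈ wbr f n ↔ w.length = n ∧ saw w ∧ Lo f w ∧ Li f w := by
  unfold wbr; rw [mem_filter, mem_wd]

theorem Hi.cons {f : Pt →+ ℤ} {e : Step} (he : 0 < f (vec e)) {w : Word} (hw : Li f w) :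
    Hi f (e :: w) := by
  intro u d h hne
  rcases List.cons_eq_append_iff.1 h with ⟨h1, _⟩ | ⟨r, h1, h2⟩
  · exact absurd h1 hne
  · rw [h1, D_cons, map_add]
    have := hw r d h2
    linarith

theorem saw_cons {e : Step} {w : Word} (hs : saw w)
    (hw : ∀ u b : Word, w = u ++ b → vec e + D u ≠ 0) : saw (e :: w) := by
  intro a u b hab hne hcon
  rcases List.cons_eq_append_iff.1 hab with ⟨_, h2⟩ | ⟨a', _, h2⟩
  · rcases List.append_eq_cons_iff.1 h2 with ⟨h3, _⟩ | ⟨u', h3, h4⟩
    · exact hne h3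
    · rw [h3, D_cons] at hcon
      exact hw u' b h4 hcon
  · exact hs a' u b h2 hne hcon

theorem card_wbr {μ : ℝ}
    (ht : Tendsto (fun n : ℕ => ((walks n).card : ℝ) ^ (1 / (n : ℝ))) atTop (nhds μ))
    {f : Pt →+ ℤ} {e : Step} (he : 0 < f (vec e)) (n : ℕ) :
    ((wbr f n).card : ℝ) ≤ μ ^ (n + 1) := by
  refine le_trans ?_ (brf_le ht f (n + 1))
  have : (wbr f n).card ≤ (brf f (n + 1)).card := by
    refine card_le_card_of_injOn (fun w => e :: w) ?_ ?_
    · intro w hw
      rw [mem_coe, mem_wbr] at hw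
      obtain ⟨h1, h2, h3, h4⟩ := hw
      rw [mem_coe, mem_brf]
      refine ⟨by simp [h1], saw_cons h2 ?_, ?_, Hi.cons he h4⟩
      · intro u b hub hcon
        have h5 := h4 u b hub
        have h6 : f (vec e + D u) = 0 := by rw [hcon, map_zero]
        rw [map_add] at h6
        linarith
      · intro c u h
        rcases List.cons_eq_append_iff.1 h with ⟨_, h6⟩ | ⟨r, _, h6⟩
        · rw [h6, D_cons, map_add]
          have := h4 w [] (by simp)
          linarith
        · exact h3 r u h6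
    · intro w _ w' _ h
      exact (List.cons.inj h).2
  exact_mod_cast this

/-! ### Reversible sets and doubling -/

/-- `S` and `vec e - τ S` are disjoint, and `τ` preserves the functional `f` -/
structure Rv (S : Set Pt) (f : Pt →+ ℤ) (τ : Sy) (e : Step) : Prop where
  inv : ∀ v, f (τ.A v) = f v
  dis : ∀ x ∈ S, ∀ y ∈ S, x + τ.A y ≠ vec e

/-- the class up, with height `h` -/
noncomputable def upc (f : Pt →+ ℤ) (S : Set Pt) (e : Step) (h : ℤ) (n : ℕ) : Finset Word :=
  (wd n).filter fun w => saw w ∧ Li f w ∧ InS S w ∧ f (D w) = h ∧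
    ∀ a u : Word, w = a ++ u → f (D a) ≤ 2 * h + f (vec e)

theorem mem_upc {f : Pt →+ ℤ} {S : Set Pt} {e : Step} {h : ℤ} {n : ℕ} {w : Word} :
    w ∈ upc f S e h n ↔ w.length = n ∧ saw w ∧ Li f w ∧ InS S w ∧ f (D w) = h ∧
      ∀ a u : Word, w = a ++ u → f (D a) ≤ 2 * h + f (vec e) := by
  unfold upc; rw [mem_filter, mem_wd]

theorem double_mem {f : Pt →+ ℤ} {S : Set Pt} {τ : Sy} {e : Step} (hR : Rv S f τ e) {h : ℤ}
    {n : ℕ} {w v : Word} (hw : w ∈ upc f S e h n) (hv : v ∈ upc f S e h n) :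
    w ++ (e :: (v.map τ.g).reverse) ∈ wbr f (2 * n + 1) := by
  rw [mem_upc] at hw hv
  obtain ⟨w1, w2, w3, w4, w5, w6⟩ := hw
  obtain ⟨v1, v2, v3, v4, v5, v6⟩ := hv
  -- initial pieces of the second part
  have hrev : ∀ r s : Word, (v.map τ.g).reverse = r ++ s → ∃ a u : Word, v = a ++ u ∧
      D r = τ.A (D u) ∧ f (D r) = h - f (D a) ∧ f (D s) = f (D a) := by
    intro r s hrs
    have h1 := rev_split hrs
    obtain ⟨a, u, h2, h3, h4⟩ := List.map_eq_append_iff.1 h1
    have h5 : D r = τ.A (D u) := by rw [← D_reverse r, ← h4, τ.D_map]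
    have h6 : f (D v) = f (D a) + f (D u) := by rw [h2, D_append, map_add]
    have h7 : f (D s) = f (D a) := by rw [← D_reverse s, ← h3, τ.D_map, hR.inv]
    refine ⟨a, u, h2, h5, ?_, h7⟩
    rw [h5, hR.inv]
    rw [v5] at h6
    linarith
  have htot : f (D (v.map τ.g).reverse) = h := by
    rw [D_reverse, τ.D_map, hR.inv, v5]
  have hhi2 : ∀ u d : Word, e :: (v.map τ.g).reverse = u ++ d → 0 ≤ h + f (D u) := by
    intro u d hud
    rcases List.cons_eq_append_iff.1 hud with ⟨h1, _⟩ | ⟨r, h1, h2⟩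
    · rw [h1, D_nil, map_zero, add_zero, ← w5]
      exact w3 w [] (by simp)
    · obtain ⟨a, u', ha, -, hf, -⟩ := hrev r d h2
      have h3 := v6 a _ ha
      rw [h1, D_cons, map_add, hf]
      linarith
  have h0S : (0 : Pt) ∈ S := by simpa using v4 v [] (by simp)
  have hsaw2 : saw (e :: (v.map τ.g).reverse) := by
    refine saw_cons (saw_rev (v2.map τ)) ?_
    intro u b hub hcon
    obtain ⟨a, u', ha, hu, -, -⟩ := hrev u b hub
    have h1 := hR.dis 0 h0S _ (v4 a u' ha)
    apply h1
    rw [map_neg, ← hu, zero_add]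
    exact neg_eq_of_add_eq_zero_left hcon
  rw [mem_wbr]
  refine ⟨?_, ?_, ?_, ?_⟩
  · simp only [List.length_append, List.length_cons, List.length_reverse, List.length_map, w1, v1]
    omega
  · refine saw_join w2 hsaw2 ?_
    intro c u hcu r d hrd hne hcon
    rcases List.cons_eq_append_iff.1 hrd with ⟨h1, _⟩ | ⟨s, h1, h2⟩
    · exact hne h1
    · obtain ⟨a, u', ha, hu, -, -⟩ := hrev s d h2
      have h3 := hR.dis _ (w4 c u hcu) _ (v4 a u' ha)
      apply h3
      rw [map_neg, ← hu]
      rw [h1, D_cons] at hcon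
      have : vec e = -(D u) - D s := by
        rw [eq_sub_iff_add_eq, eq_neg_iff_add_eq_zero]
        rw [← hcon]; abel
      rw [this]; abel
  · -- final pieces
    intro c u hcu
    rcases List.append_eq_append_iff.1 hcu with ⟨r, h1, h2⟩ | ⟨r, h1, h2⟩
    · rcases List.cons_eq_append_iff.1 h2 with ⟨h3, h4⟩ | ⟨s, h3, h4⟩
      · rw [h4, D_cons, map_add, htot]
        have h7 := v6 v [] (by simp)
        rw [v5] at h7
        linarith
      · obtain ⟨a, u', ha, -, -, hs⟩ := hrev s u h4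
        rw [hs]
        exact v3 a u' ha
    · rw [h2, D_append, map_add, D_cons, map_add, htot]
      have h3 := w6 c r h1
      have h4 : h = f (D c) + f (D r) := by rw [← w5, h1, D_append, map_add]
      linarith
  · -- initial pieces
    intro u d hud
    rcases List.append_eq_append_iff.1 hud with ⟨r, h1, h2⟩ | ⟨r, h1, h2⟩
    · rw [h1, D_append, map_add, w5]
      exact hhi2 r d h2
    · exact w3 u r h1

theorem card_upc {μ : ℝ} (hμ : 1 ≤ μ)
    (ht : Tendsto (fun n : ℕ => ((walks n).card : ℝ) ^ (1 / (n : ℝ))) atTop (nhds μ))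
    {f : Pt →+ ℤ} {S : Set Pt} {τ : Sy} {e e' : Step} (hR : Rv S f τ e)
    (he' : 0 < f (vec e')) (h : ℤ) (n : ℕ) :
    ((upc f S e h n).card : ℝ) ≤ μ ^ (n + 1) := by
  have h1 : (upc f S e h n).card * (upc f S e h n).card ≤ (wbr f (2 * n + 1)).card := by
    rw [← card_product]
    refine card_le_card_of_injOn (fun p => p.1 ++ (e :: (p.2.map τ.g).reverse)) ?_ ?_
    · rintro ⟨w, v⟩ h
      rw [mem_coe, mem_product] at h
      exact double_mem hR h.1 h.2
    · rintro ⟨w, v⟩ h ⟨w', v'⟩ h' heq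
      rw [mem_coe, mem_product, mem_upc, mem_upc] at h h'
      simp only at heq
      obtain ⟨h1, h2⟩ := List.append_inj heq (h.1.1.trans h'.1.1.symm)
      have h3 := (List.cons.inj h2).2
      rw [h1, List.map_injective_iff.2 τ.ginj (List.reverse_injective h3)]
  have h2 : ((upc f S e h n).card : ℝ) * ((upc f S e h n).card : ℝ) ≤ μ ^ (2 * n + 1 + 1) := by
    refine le_trans ?_ (card_wbr ht he' (2 * n + 1))
    exact_mod_cast h1
  have h3 : μ ^ (2 * n + 1 + 1) = μ ^ (n + 1) * μ ^ (n + 1) := by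
    rw [← pow_add]
    congr 1
    omega
  rw [h3] at h2
  exact abs_le_of_sq_le_sq' (by nlinarith) (by positivity) |>.2

/-! ### One endpoint extreme, the other one in a reversible set -/

/-- start extreme in the direction `-f`, end in a reversible set -/
noncomputable def cls (f : Pt →+ ℤ) (S : Set Pt) (n : ℕ) : Finset Word :=
  (wd n).filter fun w => saw w ∧ Li f w ∧ InS S w

theorem mem_cls {f : Pt →+ ℤ} {S : Set Pt} {n : ℕ} {w : Word} :
    w ∈ cls f S n ↔ w.length = n ∧ saw w ∧ Li f w ∧ InS S w := by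
  unfold cls; rw [mem_filter, mem_wd]

theorem cls_split {f : Pt →+ ℤ} {S : Set Pt} (e : Step) {n : ℕ} {w : Word}
    (hw : w ∈ cls f S n) :
    w ∈ upc f S e (f (D w)) n ∨ ∃ a b : Word, w = a ++ b ∧ a ∈ wbr f a.length ∧
      b ∈ upc (-f) S e ((-f) (D b)) b.length := by
  rw [mem_cls] at hw
  obtain ⟨h1, h2, h3, h4⟩ := hw
  by_cases hup : ∀ a u : Word, w = a ++ u → f (D a) ≤ 2 * f (D w) + f (vec e)
  · exact Or.inl (mem_upc.2 ⟨h1, h2, h3, h4, rfl, hup⟩)
  · right
    push Not at hup
    obtain ⟨a0, u0, h5, h6⟩ := hup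
    obtain ⟨a, b, h7, ha, hb'⟩ := exists_last_max f w
    have hb : Hi (-f) b := by
      intro u d hud hne
      have := hb' u d hud hne
      rw [AddMonoidHom.neg_apply]
      linarith
    have hmax : f (D a0) ≤ f (D a) := by
      rw [h7] at h5
      rcases List.append_eq_append_iff.1 h5 with ⟨r, h8, h9⟩ | ⟨r, h8, h9⟩
      · have h10 := hb.toLi r u0 h9
        rw [AddMonoidHom.neg_apply] at h10
        rw [h8, D_append, map_add]
        linarith
      · have h10 := ha a0 r h8
        rw [h8, D_append, map_add]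
        linarith
    have hx : f (D w) = f (D a) + f (D b) := by rw [h7, D_append, map_add]
    rw [h7] at h2 h3 h4
    refine ⟨a, b, h7, mem_wbr.2 ⟨rfl, h2.left, ha, h3.left⟩,
      mem_upc.2 ⟨rfl, h2.right, hb.toLi, h4.right, rfl, ?_⟩⟩
    intro b' r hr
    have h8 : 0 ≤ f (D a) + f (D b') := by
      rw [← map_add, ← D_append]
      exact h3 (a ++ b') r (by rw [hr]; simp)
    simp only [AddMonoidHom.neg_apply]
    linarith

/-- the heights of the words of length `n` -/
theorem card_union_upc {μ : ℝ} (hμ : 1 ≤ μ)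
    (ht : Tendsto (fun n : ℕ => ((walks n).card : ℝ) ^ (1 / (n : ℝ))) atTop (nhds μ))
    {f : Pt →+ ℤ} {S : Set Pt} {τ : Sy} {e e' : Step} (hR : Rv S f τ e)
    (he' : 0 < f (vec e')) (n : ℕ) :
    (((Finset.Icc (0 : ℤ) n).biUnion fun h => upc f S e h n).card : ℝ) ≤
      (n + 1) * μ ^ (n + 1) := by
  calc (((Finset.Icc (0 : ℤ) n).biUnion fun h => upc f S e h n).card : ℝ)
      ≤ ((∑ h ∈ Finset.Icc (0 : ℤ) n, (upc f S e h n).card : ℕ) : ℝ) := by
        exact_mod_cast card_biUnion_le
    _ = ∑ h ∈ Finset.Icc (0 : ℤ) n, ((upc f S e h n).card : ℝ) := by push_cast; rfl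
    _ ≤ ∑ _h ∈ Finset.Icc (0 : ℤ) n, μ ^ (n + 1) := sum_le_sum fun h _ => card_upc hμ ht hR he' h n
    _ = _ := by
        rw [sum_const, Int.card_Icc, nsmul_eq_mul]
        congr 1
        have : ((n : ℤ) + 1 - 0).toNat = n + 1 := by omega
        rw [this]
        push_cast
        ring

theorem card_cls {μ : ℝ} (hμ : 1 ≤ μ)
    (ht : Tendsto (fun n : ℕ => ((walks n).card : ℝ) ^ (1 / (n : ℝ))) atTop (nhds μ))
    {f : Pt →+ ℤ} (hf : ∀ w : Word, |f (D w)| ≤ w.length) {S : Set Pt} {τ : Sy}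
    {e e1 e2 : Step} (hR : Rv S f τ e) (he1 : 0 < f (vec e1)) (he2 : f (vec e2) < 0) (n : ℕ) :
    ((cls f S n).card : ℝ) ≤ (n + 1) * (n + 2) * μ ^ (n + 2) := by
  have hR' : Rv S (-f) τ e := ⟨fun v => by simp [hR.inv], hR.dis⟩
  have he2' : 0 < (-f) (vec e2) := by rw [AddMonoidHom.neg_apply]; linarith
  have hsub : cls f S n ⊆ ((Finset.Icc (0 : ℤ) n).biUnion fun h => upc f S e h n) ∪
      (range (n + 1)).biUnion (fun m => (wbr f m ×ˢ
        (Finset.Icc (0 : ℤ) (n - m : ℕ)).biUnion
          (fun h => upc (-f) S e h (n - m))).image fun p => p.1 ++ p.2) := by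
    intro w hw
    obtain ⟨hlen, -, hli, -⟩ := mem_cls.1 hw
    rw [mem_union]
    rcases cls_split e hw with h | ⟨a, b, h1, h2, h3⟩
    · left
      rw [mem_biUnion]
      refine ⟨f (D w), ?_, h⟩
      rw [Finset.mem_Icc]
      have h1 := hf w
      rw [hlen] at h1
      exact ⟨hli w [] (by simp), (abs_le.1 h1).2⟩
    · right
      have h4 : a.length + b.length = n := by rw [← hlen, h1, List.length_append]
      rw [mem_biUnion]
      refine ⟨a.length, by rw [mem_range]; omega, ?_⟩
      rw [mem_image]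
      refine ⟨(a, b), ?_, h1.symm⟩
      have h5 : n - a.length = b.length := by omega
      rw [mem_product, mem_biUnion, h5]
      refine ⟨h2, (-f) (D b), ?_, h3⟩
      rw [Finset.mem_Icc]
      have h6 := (mem_upc.1 h3).2.2.1 b [] (by simp)
      have h7 := hf b
      refine ⟨h6, ?_⟩
      rw [AddMonoidHom.neg_apply]
      have := (abs_le.1 h7).1
      linarith
  have c1 := card_union_upc hμ ht hR he1 n
  have c2 : ∀ m ∈ range (n + 1), (((wbr f m ×ˢ (Finset.Icc (0 : ℤ) (n - m : ℕ)).biUnion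
      (fun h => upc (-f) S e h (n - m))).image fun p => p.1 ++ p.2).card : ℝ) ≤
      (n + 1) * μ ^ (n + 2) := by
    intro m hm
    rw [mem_range] at hm
    have h1 := card_union_upc hμ ht hR' he2' (n - m)
    have h2 := card_wbr ht he1 m
    have h3 : ((n - m : ℕ) : ℝ) ≤ n := by exact_mod_cast Nat.sub_le n m
    calc (((wbr f m ×ˢ (Finset.Icc (0 : ℤ) (n - m : ℕ)).biUnion
        (fun h => upc (-f) S e h (n - m))).image fun p => p.1 ++ p.2).card : ℝ)
        ≤ (((wbr f m) ×ˢ (Finset.Icc (0 : ℤ) (n - m : ℕ)).biUnion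
          (fun h => upc (-f) S e h (n - m))).card : ℝ) := by
          exact_mod_cast card_image_le
      _ = ((wbr f m).card : ℝ) * (((Finset.Icc (0 : ℤ) (n - m : ℕ)).biUnion
          (fun h => upc (-f) S e h (n - m))).card : ℝ) := by
          rw [card_product]; push_cast; rfl
      _ ≤ μ ^ (m + 1) * ((((n - m : ℕ) : ℝ) + 1) * μ ^ (n - m + 1)) := by
          gcongr
      _ ≤ μ ^ (m + 1) * (((n : ℝ) + 1) * μ ^ (n - m + 1)) := by
          gcongr
      _ = (n + 1) * (μ ^ (m + 1) * μ ^ (n - m + 1)) := by ring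
      _ = _ := by
          rw [← pow_add]
          congr 2
          omega
  calc ((cls f S n).card : ℝ) ≤ ((((Finset.Icc (0 : ℤ) n).biUnion fun h => upc f S e h n) ∪
      (range (n + 1)).biUnion (fun m => (wbr f m ×ˢ
        (Finset.Icc (0 : ℤ) (n - m : ℕ)).biUnion
          (fun h => upc (-f) S e h (n - m))).image fun p => p.1 ++ p.2)).card : ℝ) := by
        exact_mod_cast card_le_card hsub
    _ ≤ (((Finset.Icc (0 : ℤ) n).biUnion fun h => upc f S e h n).card : ℝ) +
      (((range (n + 1)).biUnion (fun m => (wbr f m ×ˢ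
        (Finset.Icc (0 : ℤ) (n - m : ℕ)).biUnion
          (fun h => upc (-f) S e h (n - m))).image fun p => p.1 ++ p.2)).card : ℝ) := by
        exact_mod_cast card_union_le _ _
    _ ≤ (n + 1) * μ ^ (n + 1) + ∑ m ∈ range (n + 1), (((wbr f m ×ˢ
        (Finset.Icc (0 : ℤ) (n - m : ℕ)).biUnion
          (fun h => upc (-f) S e h (n - m))).image fun p => p.1 ++ p.2).card : ℝ) := by
        gcongr
        exact_mod_cast card_biUnion_le
    _ ≤ (n + 1) * μ ^ (n + 2) + ∑ _m ∈ range (n + 1), ((n : ℝ) + 1) * μ ^ (n + 2) := by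
        refine add_le_add ?_ (sum_le_sum c2)
        exact mul_le_mul_of_nonneg_left (pow_le_pow_right₀ hμ (by omega)) (by positivity)
    _ = _ := by
        rw [sum_const, card_range, nsmul_eq_mul]
        push_cast
        ring

end Pool.Agent.RevS
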