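import Pool.Agent.RevS.Core

/-! Both endpoints in reversible sets. -/

namespace Pool.Agent.RevS

open Finset Filter
open scoped Classical
open Pool.Agent.MP_794e6e_pr

/-- seen from its start, the walk stays in `T` -/
def InI (T : Set Pt) (l : Word) : Prop := ∀ u b : Word, l = u ++ b → D u ∈ T

theorem InI.left {T : Set Pt} {a b : Word} (h : InI T (a ++ b)) : InI T a := by
  intro u d hu
  refine h u (d ++ b) ?_
  rw [hu]; simp

theorem rv_eq_split {a c u : Word} (h : rv a = c ++ u) : a = rv u ++ rv c := by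
  rw [← rv_rv a, h, rv_append]

theorem InS_rv {T : Set Pt} {a : Word} (h : InI T a) : InS T (rv a) := by
  intro c u hcu
  have h1 := h _ _ (rv_eq_split hcu)
  rwa [D_rv] at h1

theorem Li_rv {f : Pt →+ ℤ} {a : Word} (h : Lo (-f) a) : Li f (rv a) := by
  intro c u hcu
  have h1 := h _ _ (rv_eq_split hcu)
  rw [D_rv, AddMonoidHom.neg_apply, map_neg, neg_neg] at h1
  exact h1

/-- both endpoints in reversible sets -/
noncomputable def two (S T : Set Pt) (n : ℕ) : Finset Word :=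
  (wd n).filter fun w => saw w ∧ InI T w ∧ InS S w

theorem mem_two {S T : Set Pt} {n : ℕ} {w : Word} :
    w ∈ two S T n ↔ w.length = n ∧ saw w ∧ InI T w ∧ InS S w := by
  unfold two; rw [mem_filter, mem_wd]

/-- the half-space of a functional -/
def hsp (f : Pt →+ ℤ) : Set Pt := {x | 0 ≤ f x}

theorem exists_min (f : Pt →+ ℤ) (w : Word) : ∃ a b : Word, w = a ++ b ∧ Lo (-f) a ∧ Hi f b := by
  obtain ⟨a, b, h1, h2, h3⟩ := exists_last_max (-f) w
  refine ⟨a, b, h1, h2, ?_⟩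
  intro u d hud hne
  have := h3 u d hud hne
  rw [AddMonoidHom.neg_apply] at this
  linarith

theorem two_split {S T : Set Pt} (f g : Pt →+ ℤ) {n : ℕ} {w : Word} (hw : w ∈ two S T n) :
    ∃ a m b : Word, w = rv a ++ (m ++ b) ∧ a ∈ cls f T a.length ∧
      m ∈ cls f (hsp g) m.length ∧ b ∈ cls g S b.length := by
  rw [mem_two] at hw
  obtain ⟨h1, h2, h3, h4⟩ := hw
  obtain ⟨a, w1, h5, h6, h7⟩ := exists_min f w
  obtain ⟨m, b, h8, h9, h10⟩ := exists_min g w1
  rw [h5] at h2 h3 h4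
  have h11 : Li f w1 := h7.toLi
  have h12 := h2.right
  have h13 := h4.right
  rw [h8] at h11 h12 h13
  refine ⟨rv a, m, b, by rw [rv_rv, h5, h8], mem_cls.2 ⟨rfl, h2.left.rv, Li_rv h6,
    InS_rv h3.left⟩, mem_cls.2 ⟨rfl, h12.left, h11.left, ?_⟩,
    mem_cls.2 ⟨rfl, h12.right, h10.toLi, h13.right⟩⟩
  intro c u hcu
  have h14 := h9 c u hcu
  rw [AddMonoidHom.neg_apply] at h14
  change 0 ≤ g (-D u)
  rw [map_neg]
  exact h14

theorem sy_id_A (v : Pt) : Sy.id.A v = v := rfl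

/-- the bound for two reversible sets -/
theorem card_two {μ : ℝ} (hμ : 1 ≤ μ)
    (ht : Tendsto (fun n : ℕ => ((walks n).card : ℝ) ^ (1 / (n : ℝ))) atTop (nhds μ))
    {f g : Pt →+ ℤ} (hf : ∀ w : Word, |f (D w)| ≤ w.length)
    (hg : ∀ w : Word, |g (D w)| ≤ w.length) {S T : Set Pt} {τ ρ : Sy}
    {e e1 e2 d d1 d2 : Step} (hT : Rv T f τ e) (he1 : 0 < f (vec e1)) (he2 : f (vec e2) < 0)
    (hS : Rv S g ρ d) (hd1 : 0 < g (vec d1)) (hd2 : g (vec d2) < 0) (n : ℕ) :
    ((two S T n).card : ℝ) ≤ 8 * μ ^ 6 * ((n : ℝ) + 1) ^ 8 * μ ^ n := by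
  have hH : Rv (hsp g) f Sy.id d2 := by
    refine ⟨fun v => rfl, ?_⟩
    intro x hx y hy hcon
    have h1 : g (x + y) = g (vec d2) := by rw [← hcon]; rfl
    rw [map_add] at h1
    have h2 : 0 ≤ g x := hx
    have h3 : 0 ≤ g y := hy
    linarith
  set I := (range (n + 1) ×ˢ range (n + 1)).filter (fun p => p.1 + p.2 ≤ n) with hI
  set J : ℕ × ℕ → Finset Word := fun p => (cls f T p.1 ×ˢ (cls f (hsp g) p.2 ×ˢ
    cls g S (n - p.1 - p.2))).image fun q => rv q.1 ++ (q.2.1 ++ q.2.2) with hJ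
  have hsub : two S T n ⊆ I.biUnion J := by
    intro w hw
    have hlen := (mem_two.1 hw).1
    obtain ⟨a, m, b, h1, h2, h3, h4⟩ := two_split f g hw
    have h5 : a.length + (m.length + b.length) = n := by
      rw [← hlen, h1, List.length_append, List.length_append, length_rv]
    rw [mem_biUnion]
    refine ⟨(a.length, m.length), ?_, ?_⟩
    · rw [hI, mem_filter, mem_product, mem_range, mem_range]
      exact ⟨⟨by omega, by omega⟩, by omega⟩
    · rw [hJ, mem_image]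
      refine ⟨(a, m, b), ?_, h1.symm⟩
      have h6 : n - a.length - m.length = b.length := by omega
      rw [mem_product, mem_product]
      simp only
      rw [h6]
      exact ⟨h2, h3, h4⟩
  have hn : (0 : ℝ) ≤ n := Nat.cast_nonneg n
  have hP : ∀ k : ℕ, k ≤ n → ((k : ℝ) + 1) * (k + 2) ≤ 2 * ((n : ℝ) + 1) ^ 2 := by
    intro k hk
    have h1 : (k : ℝ) ≤ n := by exact_mod_cast hk
    have h2 : (0 : ℝ) ≤ k := Nat.cast_nonneg k
    nlinarith
  have hJb : ∀ p ∈ I, ((J p).card : ℝ) ≤ 8 * ((n : ℝ) + 1) ^ 6 * μ ^ (n + 6) := by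
    intro p hp
    rw [hI, mem_filter] at hp
    have hp2 := hp.2
    have b1 := card_cls hμ ht hf hT he1 he2 p.1
    have b2 := card_cls hμ ht hf hH he1 he2 p.2
    have b3 := card_cls hμ ht hg hS hd1 hd2 (n - p.1 - p.2)
    have q1 : ((cls f T p.1).card : ℝ) ≤ 2 * ((n : ℝ) + 1) ^ 2 * μ ^ (p.1 + 2) :=
      b1.trans (mul_le_mul_of_nonneg_right (hP _ (by omega)) (by positivity))
    have q2 : ((cls f (hsp g) p.2).card : ℝ) ≤ 2 * ((n : ℝ) + 1) ^ 2 * μ ^ (p.2 + 2) :=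
      b2.trans (mul_le_mul_of_nonneg_right (hP _ (by omega)) (by positivity))
    have q3 : ((cls g S (n - p.1 - p.2)).card : ℝ) ≤
        2 * ((n : ℝ) + 1) ^ 2 * μ ^ (n - p.1 - p.2 + 2) :=
      b3.trans (mul_le_mul_of_nonneg_right (hP _ (by omega)) (by positivity))
    calc ((J p).card : ℝ) ≤ ((cls f T p.1 ×ˢ (cls f (hsp g) p.2 ×ˢ
          cls g S (n - p.1 - p.2))).card : ℝ) := by
          exact_mod_cast card_image_le
      _ = ((cls f T p.1).card : ℝ) * (((cls f (hsp g) p.2).card : ℝ) *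
          ((cls g S (n - p.1 - p.2)).card : ℝ)) := by
          rw [card_product, card_product]; push_cast; rfl
      _ ≤ (2 * ((n : ℝ) + 1) ^ 2 * μ ^ (p.1 + 2)) * ((2 * ((n : ℝ) + 1) ^ 2 * μ ^ (p.2 + 2)) *
          (2 * ((n : ℝ) + 1) ^ 2 * μ ^ (n - p.1 - p.2 + 2))) := by gcongr
      _ = 8 * ((n : ℝ) + 1) ^ 6 * (μ ^ (p.1 + 2) * μ ^ (p.2 + 2) * μ ^ (n - p.1 - p.2 + 2)) := by
          ring
      _ = _ := by
          rw [← pow_add, ← pow_add]
          congr 2
          omega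
  have hIc : (I.card : ℝ) ≤ ((n : ℝ) + 1) ^ 2 := by
    have h1 : I.card ≤ (n + 1) * (n + 1) := by
      refine (card_filter_le _ _).trans ?_
      rw [card_product, card_range]
    have h2 : (I.card : ℝ) ≤ ((n : ℝ) + 1) * ((n : ℝ) + 1) := by exact_mod_cast h1
    linarith [h2, sq ((n : ℝ) + 1)]
  calc ((two S T n).card : ℝ) ≤ ((I.biUnion J).card : ℝ) := by
        exact_mod_cast card_le_card hsub
    _ ≤ ((∑ p ∈ I, (J p).card : ℕ) : ℝ) := by exact_mod_cast card_biUnion_le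
    _ = ∑ p ∈ I, ((J p).card : ℝ) := by push_cast; rfl
    _ ≤ ∑ _p ∈ I, 8 * ((n : ℝ) + 1) ^ 6 * μ ^ (n + 6) := sum_le_sum hJb
    _ = (I.card : ℝ) * (8 * ((n : ℝ) + 1) ^ 6 * μ ^ (n + 6)) := by
        rw [sum_const, nsmul_eq_mul]
    _ ≤ ((n : ℝ) + 1) ^ 2 * (8 * ((n : ℝ) + 1) ^ 6 * μ ^ (n + 6)) := by gcongr
    _ = _ := by ring

/-! ### Matrices -/

/-- the functional of an integer vector -/
def fn (v : Fin 3 → ℤ) : Pt →+ ℤ where
  toFun x := ∑ i, v i * x i
  map_zero' := by simp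
  map_add' x y := by
    rw [← sum_add_distrib]
    refine sum_congr rfl fun i _ => ?_
    rw [Pi.add_apply]
    ring

theorem fn_apply (v : Fin 3 → ℤ) (x : Pt) : fn v x = ∑ i, v i * x i := rfl

theorem fn_vec (v : Fin 3 → ℤ) (i : Fin 3) (b : Bool) :
    fn v (vec (i, b)) = if b then v i else - v i := by
  rw [fn_apply, Finset.sum_eq_single i]
  · cases b <;> simp [vec]
  · intro j _ hj
    simp [vec, Pi.single_eq_of_ne hj]
  · intro h; exact absurd (mem_univ i) h

theorem fn_bound {v : Fin 3 → ℤ} (hv : ∀ i, |v i| ≤ 1) (w : Word) : |fn v (D w)| ≤ w.length := by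
  induction w with
  | nil => simp
  | cons s w ih =>
    rw [D_cons, map_add, List.length_cons]
    have h1 : |fn v (vec s)| ≤ 1 := by
      obtain ⟨i, b⟩ := s
      rw [fn_vec]
      cases b
      · simpa using hv i
      · simpa using hv i
    have h2 := abs_add_le (fn v (vec s)) (fn v (D w))
    push_cast
    linarith

theorem exists_upz {v : Fin 3 → ℤ} (h : v ≠ 0) : ∃ e : Step, 0 < fn v (vec e) := by
  obtain ⟨i, hi⟩ := Function.ne_iff.1 h
  rw [Pi.zero_apply] at hi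
  rcases lt_or_gt_of_ne hi with h1 | h1
  · refine ⟨(i, false), ?_⟩
    rw [fn_vec]
    simpa using h1
  · refine ⟨(i, true), ?_⟩
    rw [fn_vec]
    simpa using h1

theorem exists_downz {v : Fin 3 → ℤ} (h : v ≠ 0) : ∃ e : Step, fn v (vec e) < 0 := by
  obtain ⟨i, hi⟩ := Function.ne_iff.1 h
  rw [Pi.zero_apply] at hi
  rcases lt_or_gt_of_ne hi with h1 | h1
  · refine ⟨(i, true), ?_⟩
    rw [fn_vec]
    simpa using h1
  · refine ⟨(i, false), ?_⟩
    rw [fn_vec]
    simpa using h1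

theorem abs_of_sq {a b c : ℤ} (h : a * a + b * b + c * c = 1) : |a| + |b| + |c| = 1 := by
  have ha : |a| * |a| = a * a := abs_mul_abs_self a
  have hb : |b| * |b| = b * b := abs_mul_abs_self b
  have hc : |c| * |c| = c * c := abs_mul_abs_self c
  have h1 := abs_nonneg a
  have h2 := abs_nonneg b
  have h3 := abs_nonneg c
  generalize |a| = x at *
  generalize |b| = y at *
  generalize |c| = z at *
  have hx : x ≤ 1 := by nlinarith
  have hy : y ≤ 1 := by nlinarith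
  have hz : z ≤ 1 := by nlinarith
  have hx' : x * x = x := by
    have : x = 0 ∨ x = 1 := by omega
    rcases this with h | h <;> rw [h] <;> norm_num
  have hy' : y * y = y := by
    have : y = 0 ∨ y = 1 := by omega
    rcases this with h | h <;> rw [h] <;> norm_num
  have hz' : z * z = z := by
    have : z = 0 ∨ z = 1 := by omega
    rcases this with h | h <;> rw [h] <;> norm_num
  linarith

theorem vec_dot (s : Step) : vec s ⬝ᵥ vec s = 1 := by
  obtain ⟨i, b⟩ := s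
  rw [dotProduct, Fin.sum_univ_three]
  fin_cases i <;> cases b <;> simp [vec]

/-- the lattice symmetry of an orthogonal matrix -/
theorem exists_sy {M : Matrix (Fin 3) (Fin 3) ℤ} (hM : M.transpose * M = 1) :
    ∃ τ : Sy, ∀ x, τ.A x = - M.mulVec x := by
  have hinj : ∀ x y : Pt, M.mulVec x = M.mulVec y → x = y := by
    intro x y h
    have h1 := congrArg M.transpose.mulVec h
    rwa [Matrix.mulVec_mulVec, Matrix.mulVec_mulVec, hM, Matrix.one_mulVec,
      Matrix.one_mulVec] at h1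
  have hdot : ∀ x : Pt, M.mulVec x ⬝ᵥ M.mulVec x = x ⬝ᵥ x := by
    intro x
    rw [Matrix.dotProduct_mulVec, ← Matrix.mulVec_transpose, Matrix.mulVec_mulVec, hM,
      Matrix.one_mulVec]
  have hst : ∀ s : Step, ∃ t : Step, vec t = - M.mulVec (vec s) := by
    intro s
    refine exists_step ?_
    have h1 := hdot (vec s)
    rw [vec_dot, dotProduct, Fin.sum_univ_three] at h1
    rw [Fin.sum_univ_three]
    simp only [Pi.neg_apply, abs_neg]
    exact abs_of_sq h1
  choose g hg using hst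
  refine ⟨{ g := g, A := -(Matrix.mulVecLin M).toAddMonoidHom, ginj := ?_, Ainj := ?_, h := ?_ },
    fun x => rfl⟩
  · intro s t hst
    have h1 : - M.mulVec (vec s) = - M.mulVec (vec t) := by rw [← hg, ← hg, hst]
    exact vec_injective (hinj _ _ (neg_injective h1))
  · intro x y hxy
    have h1 : - M.mulVec x = - M.mulVec y := hxy
    exact hinj _ _ (neg_injective h1)
  · intro s
    exact hg s

theorem fn_inv {M : Matrix (Fin 3) (Fin 3) ℤ} (hM : M.transpose * M = 1) {v : Fin 3 → ℤ}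
    (hv : M.mulVec v = -v) (x : Pt) : fn v (- M.mulVec x) = fn v x := by
  have h1 : M.transpose.mulVec v = -v := by
    have h2 := congrArg M.transpose.mulVec hv
    rw [Matrix.mulVec_mulVec, hM, Matrix.one_mulVec, Matrix.mulVec_neg] at h2
    have h5 := congrArg Neg.neg h2
    rw [neg_neg] at h5
    exact h5.symm
  have h3 : fn v (M.mulVec x) = v ⬝ᵥ M.mulVec x := rfl
  have h4 : fn v x = v ⬝ᵥ x := rfl
  rw [map_neg, h3, h4, Matrix.dotProduct_mulVec, ← Matrix.mulVec_transpose, h1,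
    neg_dotProduct, neg_neg]

/-- `S` is reversible -/
def Reversible (S : Set (Fin 3 → ℤ)) : Prop :=
  ∃ (M : Matrix (Fin 3) (Fin 3) ℤ) (v e : Fin 3 → ℤ), M.transpose * M = 1 ∧
    v ≠ 0 ∧ (∀ i, |v i| ≤ 1) ∧ M.mulVec v = -v ∧ ∑ i, |e i| = 1 ∧
    ∀ x ∈ S, ∀ y ∈ S, x ≠ e + M.mulVec y

theorem Reversible.data {S : Set Pt} (h : Reversible S) :
    ∃ (f : Pt →+ ℤ) (τ : Sy) (e e1 e2 : Step), (∀ w : Word, |f (D w)| ≤ w.length) ∧
      Rv S f τ e ∧ 0 < f (vec e1) ∧ f (vec e2) < 0 := by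
  obtain ⟨M, v, e, hM, hv0, hv1, hv, he, hd⟩ := h
  obtain ⟨τ, hτ⟩ := exists_sy hM
  obtain ⟨s, hs⟩ := exists_step he
  obtain ⟨e1, he1⟩ := exists_upz hv0
  obtain ⟨e2, he2⟩ := exists_downz hv0
  refine ⟨fn v, τ, s, e1, e2, fn_bound hv1, ⟨?_, ?_⟩, he1, he2⟩
  · intro x
    rw [hτ]
    exact fn_inv hM hv x
  · intro x hx y hy hcon
    apply hd x hx y hy
    rw [hτ, hs] at hcon
    rw [← hcon]
    abel

theorem card_two' {μ : ℝ} (hμ : 1 ≤ μ)
    (ht : Tendsto (fun n : ℕ => ((walks n).card : ℝ) ^ (1 / (n : ℝ))) atTop (nhds μ))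
    {S T : Set Pt} (hS : Reversible S) (hT : Reversible T) (n : ℕ) :
    ((two S T n).card : ℝ) ≤ 8 * μ ^ 6 * ((n : ℝ) + 1) ^ 8 * μ ^ n := by
  obtain ⟨f, τ, e, e1, e2, hf, h1, h2, h3⟩ := hT.data
  obtain ⟨g, ρ, d, d1, d2, hg, h4, h5, h6⟩ := hS.data
  exact card_two hμ ht hf hg h1 h2 h3 h4 h5 h6 n

end Pool.Agent.RevS
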